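import Mathlib

/-!
# A locally finite, locally integrable group which is not integrable

Let `s 0, s 1, …` be distinct odd primes.  The group is `G = N ⋊ M`, where `M` is the elementary
abelian 2-group with basis `e 0, e 1, …` and `N` is the direct sum over `i` of the groups `N_i` of
all functions `f` from the finite sets `T ∋ i` of natural numbers to `ℤ / s i`; the element `e j`
changes the sign of `f T` for the `T` that contain `j`.
-/

set_option autoImplicit false

namespace Pool.Agent.Results.MP_2bd3fb_al.NotIntegrable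

open scoped commutatorElement

/-! ### A criterion for not being integrable -/

section criterion

universe u

/-- If the automorphisms of `G` commute with each other on an element `v` that is not central,
then `G` is not a derived subgroup. -/
theorem not_integrable {G : Type} [Group G] (v g : G) (hg : g * v * g⁻¹ ≠ v)
    (hv : ∀ α β : MulAut G, α (β v) = β (α v)) (H : Type u) [Group H] :
    IsEmpty (commutator H ≃* G) := by
  refine ⟨fun φ => hg ?_⟩
  -- the action of `H` on `G`
  let c : H →* MulAut G :=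
    (MulAut.congr φ).toMonoidHom.comp (MulAut.conjNormal (H := commutator H))
  -- commutators of automorphisms fix `v`
  have hcomm : commutator (MulAut G) ≤ MulAction.stabilizer (MulAut G) v := by
    rw [commutator_def, Subgroup.commutator_le]
    intro α _ β _
    rw [MulAction.mem_stabilizer_iff, commutatorElement_def]
    show α (β (α⁻¹ (β⁻¹ v))) = v
    have h1 : α⁻¹ (β⁻¹ v) = β⁻¹ (α⁻¹ v) := hv _ _
    rw [h1, MulAut.apply_inv_self, MulAut.apply_inv_self]
  have hk : c (φ.symm g : H) ∈ commutator (MulAut G) := by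
    have : (commutator H).map c ≤ commutator (MulAut G) := by
      rw [commutator_def, commutator_def, Subgroup.map_commutator]
      exact Subgroup.commutator_mono le_top le_top
    exact this ⟨_, (φ.symm g).2, rfl⟩
  have h2 : c (φ.symm g : H) v = v := hcomm hk
  have h3 : c (φ.symm g : H) v = g * v * g⁻¹ := by
    show φ (MulAut.conjNormal (φ.symm g : H) (φ.symm v)) = g * v * g⁻¹
    have : MulAut.conjNormal (φ.symm g : H) (φ.symm v) = φ.symm (g * v * g⁻¹) := by
      apply Subtype.ext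
      rw [MulAut.conjNormal_apply]
      simp
    rw [this, MulEquiv.apply_symm_apply]
  rw [← h3, h2]

/-- commutators of elements of a closure -/
theorem commutator_closure_le {W : Type} [Group W] (S : Set W) (D : Subgroup W)
    (hD : ∀ d ∈ D, ∀ s ∈ S, d * s = s * d) (hS : ∀ s ∈ S, ∀ t ∈ S, ⁅s, t⁆ ∈ D) :
    ⁅Subgroup.closure S, Subgroup.closure S⁆ ≤ D := by
  -- the closure centralizes `D`
  have hcen : ∀ g ∈ Subgroup.closure S, ∀ d ∈ D, g * d * g⁻¹ = d := by
    intro g hg d hd
    have : Subgroup.closure S ≤ Subgroup.centralizer {d} := by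
      rw [Subgroup.closure_le]
      intro s hs
      rw [SetLike.mem_coe, Subgroup.mem_centralizer_singleton_iff]
      exact (hD d hd s hs).symm
    have := this hg
    rw [Subgroup.mem_centralizer_singleton_iff] at this
    rw [this]; simp
  have key : ∀ t : W, ∀ T : Set W, (∀ s ∈ T, ⁅s, t⁆ ∈ D) → T ⊆ Subgroup.closure S →
      ∀ g ∈ Subgroup.closure T, ⁅g, t⁆ ∈ D := by
    intro t T hT hTS g hg
    have hle : Subgroup.closure T ≤ Subgroup.closure S := by
      rw [Subgroup.closure_le]; exact hTS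
    induction hg using Subgroup.closure_induction with
    | mem x hx => exact hT x hx
    | one => rw [commutatorElement_one_left]; exact one_mem _
    | mul x y hx hy h1 h2 =>
      have e : ⁅x * y, t⁆ = (x * ⁅y, t⁆ * x⁻¹) * ⁅x, t⁆ := by
        simp only [commutatorElement_def]; group
      rw [e, hcen x (hle hx) _ h2]
      exact mul_mem h2 h1
    | inv x hx h1 =>
      have e : ⁅x⁻¹, t⁆ = x⁻¹ * ⁅x, t⁆⁻¹ * x⁻¹⁻¹ := by
        simp only [commutatorElement_def]; group
      rw [e, hcen x⁻¹ (hle (inv_mem hx)) _ (inv_mem h1)]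
      exact inv_mem h1
  rw [Subgroup.commutator_le]
  intro g hg h hh
  refine key h S (fun s hs => ?_) Subgroup.subset_closure g hg
  rw [← commutatorElement_inv, inv_mem_iff]
  refine key s S (fun t ht => hS t ht s hs) Subgroup.subset_closure h hh

end criterion

/-! ### Semidirect products -/

/-- pairs of an element of `V` and an element of `W` -/
@[ext] structure SD (V W : Type) where
  x : V
  g : W

section SDsec
variable {V W : Type} [AddCommGroup V] [Group W] [DistribMulAction W V]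

instance : Mul (SD V W) := ⟨fun a b => ⟨a.x + a.g • b.x, a.g * b.g⟩⟩
instance : One (SD V W) := ⟨⟨0, 1⟩⟩
instance : Inv (SD V W) := ⟨fun a => ⟨-(a.g⁻¹ • a.x), a.g⁻¹⟩⟩
@[simp] theorem SD.mul_x (a b : SD V W) : (a * b).x = a.x + a.g • b.x := rfl
@[simp] theorem SD.mul_g (a b : SD V W) : (a * b).g = a.g * b.g := rfl
omit [DistribMulAction W V] in
@[simp] theorem SD.one_x : (1 : SD V W).x = 0 := rfl
omit [DistribMulAction W V] in
@[simp] theorem SD.one_g : (1 : SD V W).g = 1 := rfl
@[simp] theorem SD.inv_x (a : SD V W) : (a⁻¹).x = -(a.g⁻¹ • a.x) := rfl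
@[simp] theorem SD.inv_g (a : SD V W) : (a⁻¹).g = a.g⁻¹ := rfl

instance : Group (SD V W) :=
  Group.ofLeftAxioms
    (fun a b c => by
      apply SD.ext
      · simp [smul_add, mul_smul, add_assoc]
      · simp [mul_assoc])
    (fun a => by
      apply SD.ext <;> simp)
    (fun a => by
      apply SD.ext <;> simp)

/-- the projection -/
def SD.proj : SD V W →* W where
  toFun a := a.g
  map_one' := rfl
  map_mul' _ _ := rfl

/-- the complement -/
def SD.inc : W →* SD V W where
  toFun w := ⟨0, w⟩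
  map_one' := rfl
  map_mul' a b := by apply SD.ext <;> simp

theorem SD.pow_of_one (a : SD V W) (h : a.g = 1) (n : ℕ) : a ^ n = ⟨n • a.x, 1⟩ := by
  induction n with
  | zero => simp; rfl
  | succ n ih =>
    rw [pow_succ, ih]
    apply SD.ext
    · simp [succ_nsmul]
    · simp [h]

theorem SD.conj_of_one (a b : SD V W) (h : b.g = 1) : a * b * a⁻¹ = ⟨a.g • b.x, 1⟩ := by
  apply SD.ext
  · simp [h]
  · simp [h]

/-- the subgroup belonging to a subgroup of `V` and a subgroup of `W` -/
def SD.sub (A : AddSubgroup V) (Γ : Subgroup W) (h : ∀ γ ∈ Γ, ∀ f ∈ A, γ • f ∈ A) :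
    Subgroup (SD V W) where
  carrier := {u | u.x ∈ A ∧ u.g ∈ Γ}
  one_mem' := ⟨zero_mem _, one_mem _⟩
  mul_mem' := by
    rintro u v ⟨h1, h2⟩ ⟨h3, h4⟩
    exact ⟨add_mem h1 (h _ h2 _ h3), mul_mem h2 h4⟩
  inv_mem' := by
    rintro u ⟨h1, h2⟩
    exact ⟨neg_mem (h _ (inv_mem h2) _ h1), inv_mem h2⟩

theorem SD.mem_sub {A : AddSubgroup V} {Γ : Subgroup W} {h : ∀ γ ∈ Γ, ∀ f ∈ A, γ • f ∈ A}
    {u : SD V W} : u ∈ SD.sub A Γ h ↔ u.x ∈ A ∧ u.g ∈ Γ := Iff.rfl

theorem SD.finite_sub (A : AddSubgroup V) (Γ : Subgroup W) (h : ∀ γ ∈ Γ, ∀ f ∈ A, γ • f ∈ A)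
    [Finite A] [Finite Γ] : Finite (SD.sub A Γ h) := by
  refine Finite.of_injective (fun u : SD.sub A Γ h => ((⟨u.1.x, u.2.1⟩, ⟨u.1.g, u.2.2⟩) : A × Γ)) ?_
  intro u v huv
  simp only [Prod.mk.injEq, Subtype.mk.injEq] at huv
  exact Subtype.ext (SD.ext huv.1 huv.2)

end SDsec

/-! ### The primes -/

/-- the odd primes -/
noncomputable def s (i : ℕ) : ℕ := Nat.nth Nat.Prime (i + 1)

theorem s_prime (i : ℕ) : (s i).Prime := Nat.prime_nth_prime _

instance (i : ℕ) : Fact (s i).Prime := ⟨s_prime i⟩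

theorem s_inj {i j : ℕ} (h : i ≠ j) : s i ≠ s j := by
  intro h2
  have := Nat.nth_injective Nat.infinite_setOfPred_prime h2
  omega

theorem s_ne_two (i : ℕ) : s i ≠ 2 := by
  intro h
  rw [← Nat.nth_prime_zero_eq_two] at h
  have := Nat.nth_injective Nat.infinite_setOfPred_prime h
  omega

theorem two_ne (i : ℕ) : (2 : ZMod (s i)) ≠ 0 := by
  intro h
  have h2 : ((2 : ℕ) : ZMod (s i)) = 0 := by exact_mod_cast h
  rw [ZMod.natCast_eq_zero_iff] at h2
  exact s_ne_two i ((Nat.prime_dvd_prime_iff_eq (s_prime i) Nat.prime_two).mp h2)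

theorem eq_zero_of_neg {i : ℕ} {x : ZMod (s i)} (h : -x = x) : x = 0 := by
  have h2 : (2 : ZMod (s i)) * x = 0 := by
    have : (2 : ZMod (s i)) * x = x - -x := by ring
    rw [this, h, sub_self]
  exact (mul_eq_zero.mp h2).resolve_left (two_ne i)

theorem s_cast_ne {i j : ℕ} (h : i ≠ j) : ((s i : ℕ) : ZMod (s j)) ≠ 0 := by
  intro h2
  rw [ZMod.natCast_eq_zero_iff] at h2
  exact s_inj h ((Nat.prime_dvd_prime_iff_eq (s_prime j) (s_prime i)).mp h2).symm

/-! ### The module and the operators -/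

/-- all functions on pairs of an `i` and a finite set, with values in `ℤ / s i` -/
abbrev V : Type := ∀ i : ℕ, Finset ℕ → ZMod (s i)

/-- the group of additive automorphisms of `V` -/
abbrev W : Type := V ≃ₗ[ℤ] V

/-- diagonal operators -/
noncomputable def D : (Finset ℕ → ℤˣ) →* W where
  toFun σ := AddEquiv.toIntLinearEquiv
    { toFun := fun f i T => σ T • f i T
      invFun := fun f i T => (σ T)⁻¹ • f i T
      left_inv := fun f => by funext i T; exact inv_smul_smul (σ T) (f i T)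
      right_inv := fun f => by funext i T; exact smul_inv_smul (σ T) (f i T)
      map_add' := fun f g => by funext i T; exact smul_add (σ T) (f i T) (g i T) }
  map_one' := by
    apply LinearEquiv.ext
    intro f
    funext i T
    exact one_smul ℤˣ (f i T)
  map_mul' σ τ := by
    apply LinearEquiv.ext
    intro f
    funext i T
    exact mul_smul (σ T) (τ T) (f i T)

theorem D_apply (σ : Finset ℕ → ℤˣ) (f : V) (i : ℕ) (T : Finset ℕ) :
    (D σ • f) i T = σ T • f i T := rfl

/-- the operator that toggles `n` -/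
noncomputable def X (n : ℕ) : W := AddEquiv.toIntLinearEquiv
  { toFun := fun f i T => f i (symmDiff T {n})
    invFun := fun f i T => f i (symmDiff T {n})
    left_inv := fun f => by funext i T; simp
    right_inv := fun f => by funext i T; simp
    map_add' := fun f g => rfl }

theorem X_apply (n : ℕ) (f : V) (i : ℕ) (T : Finset ℕ) :
    (X n • f) i T = f i (symmDiff T {n}) := rfl

theorem X_inv_apply (n : ℕ) (f : V) (i : ℕ) (T : Finset ℕ) :
    ((X n)⁻¹ • f) i T = f i (symmDiff T {n}) := rfl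

/-- the characters -/
def χ : (ℕ → ℤˣ) →* (Finset ℕ → ℤˣ) where
  toFun c T := ∏ j ∈ T, c j
  map_one' := by funext T; simp
  map_mul' a b := by funext T; simp [Finset.prod_mul_distrib]

theorem χ_apply (c : ℕ → ℤˣ) (T : Finset ℕ) : χ c T = ∏ j ∈ T, c j := rfl

/-- the `j`-th sign vector -/
def ε (j : ℕ) : ℕ → ℤˣ := Pi.mulSingle j (-1)

theorem χε (j : ℕ) (T : Finset ℕ) : χ (ε j) T = if j ∈ T then -1 else 1 := by
  rw [χ_apply, ε, Finset.prod_pi_mulSingle' j (-1) T]

/-- the operator `e j` -/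
noncomputable def e (j : ℕ) : W := D (χ (ε j))

theorem e_apply (j : ℕ) (f : V) (i : ℕ) (T : Finset ℕ) :
    (e j • f) i T = if j ∈ T then -f i T else f i T := by
  rw [e, D_apply, χε]
  split_ifs <;> simp

/-- the controlled signs -/
def y (n j : ℕ) : Finset ℕ → ℤˣ := fun T => if j ∈ T ∧ n ∈ T then -1 else 1

/-- the generators of `Γ n` -/
noncomputable def gens (n : ℕ) : Set (W) :=
  insert (X n) (insert (D (fun _ => -1)) {w | ∃ j < n, w = D (y n j)})

/-- the group generated by `e j`, `j < n` -/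
noncomputable def M (n : ℕ) : Subgroup (W) := Subgroup.closure {w | ∃ j < n, w = e j}

/-- a group with derived group `M n` -/
noncomputable def Γ (n : ℕ) : Subgroup (W) := Subgroup.closure (gens n)

/-- the functions that vanish at all `i ≥ n` and at all `T` that do not contain `i` -/
def N (n : ℕ) : AddSubgroup V where
  carrier := {f | (∀ i, n ≤ i → f i = 0) ∧ ∀ i T, i ∉ T → f i T = 0}
  zero_mem' := ⟨fun _ _ => rfl, fun _ _ _ => rfl⟩
  add_mem' := by
    rintro f g ⟨h1, h2⟩ ⟨h3, h4⟩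
    refine ⟨fun i hi => ?_, fun i T hT => ?_⟩
    · rw [Pi.add_apply, h1 i hi, h3 i hi, add_zero]
    · rw [Pi.add_apply, Pi.add_apply, h2 i T hT, h4 i T hT, add_zero]
  neg_mem' := by
    rintro f ⟨h1, h2⟩
    refine ⟨fun i hi => ?_, fun i T hT => ?_⟩
    · rw [Pi.neg_apply, h1 i hi, neg_zero]
    · rw [Pi.neg_apply, Pi.neg_apply, h2 i T hT, neg_zero]

/-- the operators that leave a subgroup invariant -/
def stab (A : AddSubgroup V) : Subgroup (W) where
  carrier := {w | (∀ f ∈ A, w • f ∈ A) ∧ ∀ f ∈ A, w⁻¹ • f ∈ A}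
  one_mem' := ⟨fun f hf => hf, fun f hf => hf⟩
  mul_mem' := by
    rintro a b ⟨h1, h2⟩ ⟨h3, h4⟩
    refine ⟨fun f hf => ?_, fun f hf => ?_⟩
    · rw [mul_smul]; exact h1 _ (h3 _ hf)
    · rw [mul_inv_rev, mul_smul]; exact h4 _ (h2 _ hf)
  inv_mem' := by
    rintro a ⟨h1, h2⟩
    exact ⟨h2, by rw [inv_inv]; exact h1⟩

theorem D_mem_stab (σ : Finset ℕ → ℤˣ) (n : ℕ) : D σ ∈ stab (N n) := by
  have key : ∀ τ : Finset ℕ → ℤˣ, ∀ f ∈ N n, D τ • f ∈ N n := by
    rintro τ f ⟨h1, h2⟩
    refine ⟨fun i hi => ?_, fun i T hT => ?_⟩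
    · funext T
      rw [D_apply, h1 i hi]; simp
    · rw [D_apply, h2 i T hT, smul_zero]
  refine ⟨key σ, ?_⟩
  rw [← map_inv]; exact key _

theorem X_mem_stab (n : ℕ) : X n ∈ stab (N n) := by
  have key : ∀ f ∈ N n, X n • f ∈ N n := by
    rintro f ⟨h1, h2⟩
    refine ⟨fun i hi => ?_, fun i T hT => ?_⟩
    · funext T
      rw [X_apply, h1 i hi]; rfl
    · rw [X_apply]
      by_cases hi : n ≤ i
      · rw [h1 i hi]; rfl
      · apply h2
        rw [Finset.mem_symmDiff, Finset.mem_singleton]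
        push Not at hi
        rintro (⟨h, _⟩ | ⟨h, _⟩)
        · exact hT h
        · omega
  refine ⟨key, ?_⟩
  intro f hf
  have : (X n)⁻¹ • f = X n • f := rfl
  rw [this]; exact key f hf

theorem Γ_le_stab (n : ℕ) : Γ n ≤ stab (N n) := by
  rw [Γ, Subgroup.closure_le]
  rintro w (rfl | rfl | ⟨j, _, rfl⟩)
  · exact X_mem_stab n
  · exact D_mem_stab _ n
  · exact D_mem_stab _ n

theorem M_le_stab (m n : ℕ) : M m ≤ stab (N n) := by
  rw [M, Subgroup.closure_le]
  rintro w ⟨j, _, rfl⟩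
  exact D_mem_stab _ n

theorem M_mono {m n : ℕ} (h : m ≤ n) : M m ≤ M n := by
  apply Subgroup.closure_mono
  rintro w ⟨j, hj, rfl⟩
  exact ⟨j, by omega, rfl⟩

theorem N_mono {m n : ℕ} (h : m ≤ n) : N m ≤ N n := by
  rintro f ⟨h1, h2⟩
  exact ⟨fun i hi => h1 i (by omega), h2⟩

theorem e_mem {n j : ℕ} (h : j < n) : e j ∈ M n := Subgroup.subset_closure ⟨j, h, rfl⟩

/-- the elements of `M n` are diagonal, given by sign vectors with support in `{0, …, n-1}` -/
theorem M_diag {n : ℕ} {w : W} (hw : w ∈ M n) :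
    ∃ c : ℕ → ℤˣ, (∀ j, n ≤ j → c j = 1) ∧ w = D (χ c) := by
  induction hw using Subgroup.closure_induction with
  | mem x hx =>
    obtain ⟨j, hj, rfl⟩ := hx
    refine ⟨ε j, fun k hk => ?_, rfl⟩
    exact Pi.mulSingle_eq_of_ne (by omega) _
  | one => exact ⟨1, fun _ _ => rfl, by rw [map_one, map_one]⟩
  | mul x y _ _ h1 h2 =>
    obtain ⟨c, hc, rfl⟩ := h1
    obtain ⟨c', hc', rfl⟩ := h2
    exact ⟨c * c', fun j hj => by rw [Pi.mul_apply, hc j hj, hc' j hj, one_mul], by
      rw [map_mul, map_mul]⟩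
  | inv x _ h1 =>
    obtain ⟨c, hc, rfl⟩ := h1
    exact ⟨c⁻¹, fun j hj => by rw [Pi.inv_apply, hc j hj, inv_one], by rw [map_inv, map_inv]⟩

theorem M_sq {n : ℕ} {w : W} (hw : w ∈ M n) : w * w = 1 := by
  obtain ⟨c, _, rfl⟩ := M_diag hw
  rw [← map_mul, ← map_mul]
  have : c * c = 1 := by
    funext j
    exact Int.units_mul_self (c j)
  rw [this, map_one, map_one]

theorem M_finite (n : ℕ) : Finite (M n) := by
  classical
  have h : (M n : Set (W)) ⊆
      Set.range (fun c : Fin n → ℤˣ => D (χ (fun j => if h : j < n then c ⟨j, h⟩ else 1))) := by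
    intro w hw
    obtain ⟨c, hc, rfl⟩ := M_diag hw
    refine ⟨fun j => c j, ?_⟩
    have : (fun j => if h : j < n then c ((⟨j, h⟩ : Fin n) : ℕ) else 1) = c := by
      funext j
      split_ifs with hj
      · rfl
      · exact (hc j (by omega)).symm
    show D (χ (fun j => if h : j < n then c ((⟨j, h⟩ : Fin n) : ℕ) else 1)) = D (χ c)
    rw [this]
  exact (Set.finite_range _).subset h

/-! ### The derived group of `Γ n` -/

theorem X_D (n : ℕ) (σ : Finset ℕ → ℤˣ) :
    ⁅X n, D σ⁆ = D ((fun T => σ (symmDiff T {n})) * σ⁻¹) := by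
  have h : ∀ f : V, ⁅X n, D σ⁆ • f = D ((fun T => σ (symmDiff T {n})) * σ⁻¹) • f := by
    intro f
    funext i T
    rw [commutatorElement_def, mul_smul, mul_smul, mul_smul, X_apply, D_apply, X_inv_apply,
      ← map_inv, D_apply, D_apply]
    simp [mul_smul]
  exact LinearEquiv.ext h

theorem D_comm (σ τ : Finset ℕ → ℤˣ) : D σ * D τ = D τ * D σ := by
  rw [← map_mul, ← map_mul, mul_comm]

theorem commutator_Γ (n : ℕ) : ⁅Γ n, Γ n⁆ = M n := by
  have hXe : ∀ j < n, ⁅X n, e j⁆ = 1 := by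
    intro j hj
    rw [e, X_D]
    have : (fun T => χ (ε j) (symmDiff T {n})) * (χ (ε j))⁻¹ = 1 := by
      funext T
      rw [Pi.mul_apply, Pi.inv_apply, χε, χε, Pi.one_apply]
      have hne : j ≠ n := by omega
      have : j ∈ symmDiff T {n} ↔ j ∈ T := by
        rw [Finset.mem_symmDiff, Finset.mem_singleton]
        tauto
      simp only [this]
      split_ifs <;> simp
    rw [this, map_one]
  have hXy : ∀ j < n, ⁅X n, D (y n j)⁆ = e j := by
    intro j hj
    rw [X_D, e]
    congr 1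
    funext T
    rw [Pi.mul_apply, Pi.inv_apply, χε]
    simp only [y]
    have hne : j ≠ n := by omega
    have h1 : j ∈ symmDiff T {n} ↔ j ∈ T := by
      rw [Finset.mem_symmDiff, Finset.mem_singleton]
      tauto
    have h2 : n ∈ symmDiff T {n} ↔ n ∉ T := by
      rw [Finset.mem_symmDiff, Finset.mem_singleton]
      tauto
    simp only [h1, h2]
    by_cases hj' : j ∈ T <;> by_cases hn' : n ∈ T <;> simp [hj', hn']
  apply le_antisymm
  · apply commutator_closure_le
    · intro d hd t ht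
      -- the generators commute with `M n`
      have : M n ≤ Subgroup.centralizer {t} := by
        rw [M, Subgroup.closure_le]
        rintro w ⟨j, hj, rfl⟩
        rw [SetLike.mem_coe, Subgroup.mem_centralizer_singleton_iff]
        rcases ht with rfl | rfl | ⟨k, _, rfl⟩
        · exact (commutatorElement_eq_one_iff_mul_comm.mp (hXe j hj)).symm
        · exact D_comm _ _
        · exact D_comm _ _
      exact Subgroup.mem_centralizer_singleton_iff.mp (this hd)
    · intro a ha b hb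
      have hXm : ⁅X n, D (fun _ => -1)⁆ = 1 := by
        rw [X_D]
        have : ((fun T => (fun _ => -1 : Finset ℕ → ℤˣ) (symmDiff T {n})) *
          (fun _ => -1 : Finset ℕ → ℤˣ)⁻¹ : Finset ℕ → ℤˣ) = 1 := by
          funext T; simp
        rw [this, map_one]
      have hDD : ∀ σ τ, ⁅D σ, D τ⁆ ∈ M n := by
        intro σ τ
        rw [commutatorElement_eq_one_iff_mul_comm.mpr (D_comm σ τ)]
        exact one_mem _
      rcases ha with rfl | rfl | ⟨j, hj, rfl⟩ <;> rcases hb with rfl | rfl | ⟨k, hk, rfl⟩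
      · rw [commutatorElement_self]; exact one_mem _
      · rw [hXm]; exact one_mem _
      · rw [hXy k hk]; exact e_mem hk
      · rw [← commutatorElement_inv, hXm, inv_one]; exact one_mem _
      · exact hDD _ _
      · exact hDD _ _
      · rw [← commutatorElement_inv, hXy j hj]; exact inv_mem (e_mem hj)
      · exact hDD _ _
      · exact hDD _ _
  · rw [M, Subgroup.closure_le]
    rintro w ⟨j, hj, rfl⟩
    rw [← hXy j hj]
    exact Subgroup.commutator_mem_commutator
      (Subgroup.subset_closure (Or.inl rfl)) (Subgroup.subset_closure (Or.inr (Or.inr ⟨j, hj, rfl⟩)))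

/-! ### The group -/

/-- the big semidirect product -/
abbrev U : Type := SD V (W)

/-- the subgroup `N n ⋊ M n` -/
noncomputable def K (n : ℕ) : Subgroup U := SD.sub (N n) (M n) (fun _ hγ f hf => (M_le_stab n n hγ).1 f hf)

/-- the subgroup `N n ⋊ Γ n` -/
noncomputable def L (n : ℕ) : Subgroup U := SD.sub (N n) (Γ n) (fun _ hγ f hf => (Γ_le_stab n hγ).1 f hf)

theorem K_mono {m n : ℕ} (h : m ≤ n) : K m ≤ K n := by
  rintro u ⟨h1, h2⟩
  exact ⟨N_mono h h1, M_mono h h2⟩

/-- `K n` is the derived group of `L n` -/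
theorem commutator_L (n : ℕ) : ⁅L n, L n⁆ = K n := by
  apply le_antisymm
  · rw [Subgroup.commutator_le]
    intro a ha b hb
    refine ⟨?_, ?_⟩
    · have : ⁅a, b⁆ ∈ L n := by
        rw [commutatorElement_def]
        exact mul_mem (mul_mem (mul_mem ha hb) (inv_mem ha)) (inv_mem hb)
      exact this.1
    · rw [← commutator_Γ]
      have : (⁅a, b⁆ : U).g = ⁅a.g, b.g⁆ := by
        have := map_commutatorElement (SD.proj : U →* W) a b
        exact this
      rw [this]
      exact Subgroup.commutator_mem_commutator ha.2 hb.2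
  · rintro u ⟨h1, h2⟩
    -- the complement
    have hc : ∀ w ∈ M n, (⟨0, w⟩ : U) ∈ ⁅L n, L n⁆ := by
      intro w hw
      have hle : ⁅Γ n, Γ n⁆ ≤ (⁅L n, L n⁆).comap (SD.inc : W →* U) := by
        rw [Subgroup.commutator_le]
        intro a ha b hb
        rw [Subgroup.mem_comap, map_commutatorElement]
        exact Subgroup.commutator_mem_commutator ⟨zero_mem _, ha⟩ ⟨zero_mem _, hb⟩
      rw [commutator_Γ] at hle
      exact hle hw
    -- the kernel
    have hk : (⟨u.x, 1⟩ : U) ∈ ⁅L n, L n⁆ := by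
      let g : V := fun i T => (2 : ZMod (s i))⁻¹ * u.x i T
      have hg : g ∈ N n := by
        refine ⟨fun i hi => ?_, fun i T hT => ?_⟩
        · funext T
          show (2 : ZMod (s i))⁻¹ * u.x i T = 0
          rw [h1.1 i hi]; simp
        · show (2 : ZMod (s i))⁻¹ * u.x i T = 0
          rw [h1.2 i T hT, mul_zero]
      have : (⟨u.x, 1⟩ : U) = ⁅(⟨g, 1⟩ : U), ⟨0, D (fun _ => -1)⟩⁆ := by
        have hm : (D (fun _ => -1))⁻¹ = D (fun _ => -1) := by
          rw [← map_inv]; rfl
        rw [commutatorElement_def]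
        apply SD.ext
        · simp only [SD.mul_x, SD.mul_g, SD.inv_x, SD.inv_g, inv_one, one_smul, one_mul, mul_one,
            smul_zero, add_zero, neg_zero]
          funext i T
          rw [Pi.add_apply, Pi.add_apply, D_apply, Pi.neg_apply, Pi.neg_apply]
          show u.x i T = (2 : ZMod (s i))⁻¹ * u.x i T + (-1 : ℤˣ) • -((2 : ZMod (s i))⁻¹ * u.x i T)
          have h2 : (2 : ZMod (s i)) * (2 : ZMod (s i))⁻¹ = 1 := mul_inv_cancel₀ (two_ne i)
          rw [Units.neg_smul, one_smul, neg_neg, ← two_mul, ← mul_assoc, h2, one_mul]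
        · simp
      rw [this]
      refine Subgroup.commutator_mem_commutator ⟨hg, one_mem _⟩ ⟨zero_mem _, ?_⟩
      exact Subgroup.subset_closure (Or.inr (Or.inl rfl))
    have : u = (⟨u.x, 1⟩ : U) * ⟨0, u.g⟩ := by
      apply SD.ext <;> simp
    rw [this]
    exact mul_mem hk (hc _ h2)

/-- the group `G`: the union of the `K n` -/
noncomputable def G : Subgroup U where
  carrier := {u | ∃ n, u ∈ K n}
  one_mem' := ⟨0, one_mem _⟩
  mul_mem' := by
    rintro a b ⟨m, hm⟩ ⟨n, hn⟩
    exact ⟨max m n, mul_mem (K_mono (le_max_left _ _) hm) (K_mono (le_max_right _ _) hn)⟩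
  inv_mem' := by
    rintro a ⟨m, hm⟩
    exact ⟨m, inv_mem hm⟩

theorem K_le_G (n : ℕ) : K n ≤ G := fun _ hu => ⟨n, hu⟩

theorem finite_subset_K (F : Set U) (hF : F.Finite) (hFG : F ⊆ G) : ∃ n, F ⊆ K n := by
  induction F, hF using Set.Finite.induction_on with
  | empty => exact ⟨0, Set.empty_subset _⟩
  | @insert a S _ _ ih =>
    obtain ⟨m, hm⟩ := ih (fun x hx => hFG (Set.mem_insert_of_mem _ hx))
    obtain ⟨n, hn⟩ := hFG (Set.mem_insert a S)
    refine ⟨max m n, ?_⟩
    rintro x (rfl | hx)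
    · exact K_mono (le_max_right _ _) hn
    · exact K_mono (le_max_left _ _) (hm hx)

/-! ### Local finiteness -/

theorem N_torsion {n : ℕ} {f : V} (hf : f ∈ N n) : (∏ i ∈ Finset.range n, s i) • f = 0 := by
  funext i T
  by_cases hi : n ≤ i
  · have := hf.1 i hi
    rw [Pi.smul_apply, Pi.smul_apply, this]; simp
  · push Not at hi
    rw [Pi.smul_apply, Pi.smul_apply, nsmul_eq_mul]
    have : ((∏ i ∈ Finset.range n, s i : ℕ) : ZMod (s i)) = 0 := by
      rw [ZMod.natCast_eq_zero_iff]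
      exact Finset.dvd_prod_of_mem _ (Finset.mem_range.mpr hi)
    rw [this, zero_mul]; rfl

theorem finite_closure {F : Set U} (hF : F.Finite) {n : ℕ} (hFn : F ⊆ K n) :
    ∃ Q : Subgroup U, Finite Q ∧ F ⊆ Q := by
  have := M_finite n
  -- the translates
  let E : Set V := Set.image2 (fun (w : W) (u : U) => w • u.x) (M n) F
  have hE : E.Finite := Set.Finite.image2 _ (Set.toFinite _) hF
  let A : AddSubgroup V := AddSubgroup.closure E
  have hEN : E ⊆ N n := by
    rintro _ ⟨w, hw, u, hu, rfl⟩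
    exact (M_le_stab n n hw).1 _ (hFn hu).1
  have hAN : A ≤ N n := by
    rw [AddSubgroup.closure_le]; exact hEN
  have hinv : ∀ γ ∈ M n, ∀ f ∈ A, γ • f ∈ A := by
    intro γ hγ f hf
    induction hf using AddSubgroup.closure_induction with
    | mem x hx =>
      obtain ⟨w, hw, u, hu, rfl⟩ := hx
      apply AddSubgroup.subset_closure
      exact ⟨γ * w, mul_mem hγ hw, u, hu, mul_smul _ _ _⟩
    | zero => rw [smul_zero]; exact zero_mem _
    | add x y _ _ h1 h2 => rw [smul_add]; exact add_mem h1 h2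
    | neg x _ h1 => rw [smul_neg]; exact neg_mem h1
  have hAfin : Finite A := by
    have : AddGroup.FG A := by
      rw [AddGroup.fg_iff_addSubgroup_fg]
      exact ⟨hE.toFinset, by rw [Set.Finite.coe_toFinset]⟩
    apply AddCommGroup.finite_of_fg_isAddTorsion
    intro a
    rw [isOfFinAddOrder_iff_nsmul_eq_zero]
    refine ⟨∏ i ∈ Finset.range n, s i, Finset.prod_pos (fun i _ => (s_prime i).pos), ?_⟩
    apply Subtype.ext
    exact N_torsion (hAN a.2)
  refine ⟨SD.sub A (M n) hinv, SD.finite_sub _ _ _, ?_⟩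
  intro u hu
  refine ⟨?_, (hFn hu).2⟩
  apply AddSubgroup.subset_closure
  exact ⟨1, one_mem _, u, hu, one_smul _ _⟩

theorem G_locally_finite (Q : Subgroup G) (hQ : Q.FG) : Finite Q := by
  obtain ⟨S, hS⟩ := hQ
  have hF : ((↑) '' (S : Set G) : Set U).Finite := S.finite_toSet.image _
  have hFG : ((↑) '' (S : Set G) : Set U) ⊆ G := by
    rintro _ ⟨x, _, rfl⟩
    exact x.2
  obtain ⟨n, hn⟩ := finite_subset_K _ hF hFG
  obtain ⟨R, hR, hFR⟩ := finite_closure hF hn
  have hQR : Q ≤ R.comap G.subtype := by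
    rw [← hS, Subgroup.closure_le]
    intro x hx
    exact hFR ⟨x, hx, rfl⟩
  refine Finite.of_injective (fun q : Q => (⟨(q.1 : U), hQR q.2⟩ : R)) ?_
  intro a b hab
  have hab' : ((a.1 : G) : U) = ((b.1 : G) : U) := congrArg (fun r : R => (r : U)) hab
  exact Subtype.ext (Subtype.ext hab')

/-! ### Local integrability -/

theorem G_locally_integrable (F : Set G) (hF : F.Finite) :
    ∃ Q : Subgroup G, F ⊆ Q ∧ ∃ (H : Type) (_ : Group H), Nonempty (commutator H ≃* Q) := by
  have hFG : ((↑) '' F : Set U) ⊆ G := by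
    rintro _ ⟨x, _, rfl⟩
    exact x.2
  obtain ⟨n, hn⟩ := finite_subset_K _ (hF.image _) hFG
  refine ⟨(K n).subgroupOf G, fun x hx => hn ⟨x, hx, rfl⟩, L n, inferInstance, ⟨?_⟩⟩
  have h1 : (commutator (L n)).map (L n).subtype = K n := by
    rw [Subgroup.map_subtype_commutator, commutator_L]
  exact ((commutator (L n)).equivMapOfInjective _ (L n).subtype_injective).trans
    ((MulEquiv.subgroupCongr h1).trans (Subgroup.subgroupOfEquivOfLe (K_le_G n)).symm)

/-! ### The group is not integrable -/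

theorem G_g {x : U} (hx : x ∈ G) : ∃ c : ℕ → ℤˣ, x.g = D (χ c) := by
  obtain ⟨n, _, h⟩ := hx
  obtain ⟨c, _, hc⟩ := M_diag h
  exact ⟨c, hc⟩

theorem G_sq {x : U} (hx : x ∈ G) : x.g * x.g = 1 := by
  obtain ⟨n, _, h⟩ := hx
  exact M_sq h

/-- elements with odd order lie in the kernel -/
theorem g_one_of_pow {x : U} (hx : x ∈ G) {k : ℕ} (hk : Odd k) (h : x ^ k = 1) : x.g = 1 := by
  have h1 : (x ^ k).g = x.g ^ k := map_pow (SD.proj : U →* W) x k
  rw [h] at h1
  obtain ⟨m, rfl⟩ := hk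
  rw [pow_succ, pow_mul, pow_two, G_sq hx, one_pow, one_mul] at h1
  exact h1.symm

theorem s_odd (i : ℕ) : Odd (s i) := (s_prime i).odd_of_ne_two (s_ne_two i)

/-- the elements of order dividing `s i` -/
theorem pow_s_iff {x : U} (hx : x ∈ G) (i : ℕ) :
    x ^ s i = 1 ↔ x.g = 1 ∧ ∀ j, j ≠ i → x.x j = 0 := by
  constructor
  · intro h
    have hg := g_one_of_pow hx (s_odd i) h
    refine ⟨hg, fun j hj => ?_⟩
    rw [SD.pow_of_one x hg] at h
    have h2 : s i • x.x = 0 := congrArg SD.x h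
    funext T
    have h3 := congrFun (congrFun h2 j) T
    rw [Pi.smul_apply, Pi.smul_apply, nsmul_eq_mul] at h3
    exact (mul_eq_zero.mp h3).resolve_left (s_cast_ne (Ne.symm hj))
  · rintro ⟨hg, h⟩
    rw [SD.pow_of_one x hg]
    apply SD.ext
    · show s i • x.x = 0
      funext j T
      by_cases hj : j = i
      · subst hj
        rw [Pi.smul_apply, Pi.smul_apply, nsmul_eq_mul, ZMod.natCast_self, zero_mul]; rfl
      · rw [Pi.smul_apply, Pi.smul_apply, h j hj]; simp
    · rfl

theorem G_vanish {x : U} (hx : x ∈ G) (i : ℕ) (T : Finset ℕ) (h : i ∉ T) : x.x i T = 0 := by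
  obtain ⟨n, hn, _⟩ := hx
  exact hn.2 i T h

/-- the basis function at `(i, T)` -/
noncomputable def δ (i : ℕ) (T : Finset ℕ) : V := Pi.single i (Pi.single T 1)

theorem δ_self (i : ℕ) (T : Finset ℕ) : δ i T i T = 1 := by
  rw [δ, Pi.single_eq_same, Pi.single_eq_same]

theorem δ_ne (i : ℕ) (T : Finset ℕ) (j : ℕ) (hj : j ≠ i) : δ i T j = 0 := by
  rw [δ, Pi.single_eq_of_ne hj]

theorem δ_ne' (i : ℕ) (T T' : Finset ℕ) (hj : T' ≠ T) : δ i T i T' = 0 := by
  rw [δ, Pi.single_eq_same, Pi.single_eq_of_ne hj]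

theorem δ_mem (i : ℕ) (T : Finset ℕ) (h : i ∈ T) : (⟨δ i T, 1⟩ : U) ∈ G := by
  refine ⟨i + 1, ⟨fun j hj => δ_ne i T j (by omega), fun j T' hT' => ?_⟩, one_mem _⟩
  by_cases hj : j = i
  · subst hj
    apply δ_ne'
    rintro rfl
    exact hT' h
  · show δ i T j T' = 0
    rw [δ_ne i T j hj]; rfl

theorem e_mem_G (j : ℕ) : (⟨0, e j⟩ : U) ∈ G :=
  ⟨j + 1, zero_mem _, e_mem (by omega)⟩

/-- the element `e j` of `G` -/
noncomputable def eG (j : ℕ) : G := ⟨⟨0, e j⟩, e_mem_G j⟩

/-- automorphisms fix `e j` modulo the kernel -/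
theorem aut_e (α : MulAut G) (j : ℕ) : (α (eG j) : U).g = e j := by
  -- `e j` inverts the elements of order `s j`
  have h1 : ∀ x : G, x ^ s j = 1 → eG j * x * (eG j)⁻¹ = x⁻¹ := by
    intro x hx
    have hx' : (x : U) ^ s j = 1 := by
      rw [← SubgroupClass.coe_pow, hx]; rfl
    obtain ⟨hg, hz⟩ := (pow_s_iff x.2 j).mp hx'
    apply Subtype.ext
    show (⟨0, e j⟩ : U) * (x : U) * (⟨0, e j⟩ : U)⁻¹ = (x : U)⁻¹
    rw [SD.conj_of_one _ _ hg]
    apply SD.ext
    · show e j • (x : U).x = -((x : U).g⁻¹ • (x : U).x)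
      rw [hg, inv_one, one_smul]
      funext i T
      rw [e_apply, Pi.neg_apply, Pi.neg_apply]
      by_cases hij : i = j
      · subst hij
        by_cases hT : i ∈ T
        · rw [if_pos hT]
        · rw [if_neg hT, G_vanish x.2 i T hT, neg_zero]
      · rw [hz i hij]; simp
    · show (1 : W) = ((x : U).g)⁻¹
      rw [hg, inv_one]
  have h2 : ∀ x : G, x ^ s j = 1 → α (eG j) * x * (α (eG j))⁻¹ = x⁻¹ := by
    intro x hx
    have h3 : (α⁻¹ x) ^ s j = 1 := by rw [← map_pow, hx, map_one]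
    have h4 := congrArg α (h1 _ h3)
    rw [map_mul, map_mul, map_inv, map_inv, MulAut.apply_inv_self] at h4
    exact h4
  obtain ⟨c, hc⟩ := G_g (α (eG j)).2
  -- the values of the character
  have h5 : ∀ T : Finset ℕ, j ∈ T → ∏ l ∈ T, c l = -1 := by
    intro T hT
    have h6 := h2 ⟨⟨δ j T, 1⟩, δ_mem j T hT⟩ (by
      apply Subtype.ext
      rw [SubgroupClass.coe_pow]
      exact (pow_s_iff (δ_mem j T hT) j).mpr ⟨rfl, fun i hi => δ_ne j T i hi⟩)
    have h7 : (α (eG j) : U) * (⟨δ j T, 1⟩ : U) * (α (eG j) : U)⁻¹ = (⟨δ j T, 1⟩ : U)⁻¹ :=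
      congrArg Subtype.val h6
    rw [SD.conj_of_one _ _ rfl, hc] at h7
    have h8 : D (χ c) • δ j T = -((1 : W)⁻¹ • δ j T) := congrArg SD.x h7
    rw [inv_one, one_smul] at h8
    have h9 := congrFun (congrFun h8 j) T
    rw [D_apply, χ_apply, Pi.neg_apply, Pi.neg_apply, δ_self] at h9
    rcases Int.units_eq_one_or (∏ l ∈ T, c l) with h | h
    · rw [h, one_smul] at h9
      exact absurd (eq_zero_of_neg h9.symm) one_ne_zero
    · exact h
  have hcj : c j = -1 := by
    have := h5 {j} (Finset.mem_singleton_self j)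
    rwa [Finset.prod_singleton] at this
  have hcl : ∀ l, l ≠ j → c l = 1 := by
    intro l hl
    have := h5 {j, l} (Finset.mem_insert_self j _)
    rw [Finset.prod_pair (Ne.symm hl), hcj, neg_one_mul, neg_inj] at this
    exact this
  have : c = ε j := by
    funext l
    by_cases hl : l = j
    · subst hl
      rw [ε, Pi.mulSingle_eq_same, hcj]
    · rw [ε, Pi.mulSingle_eq_of_ne hl, hcl l hl]
  rw [hc, this, e]

/-- the chosen element -/
noncomputable def v : G := ⟨⟨δ 0 {0}, 1⟩, δ_mem 0 {0} (Finset.mem_singleton_self 0)⟩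

theorem v_pow (k : ℕ) : (v ^ k : U) = ⟨k • δ 0 {0}, 1⟩ := SD.pow_of_one _ rfl k

/-- automorphisms map `v` to a power of `v` -/
theorem aut_v (α : MulAut G) : ∃ k : ℕ, α v = v ^ k := by
  have hpow : v ^ s 0 = 1 := by
    apply Subtype.ext
    rw [SubgroupClass.coe_pow]
    exact (pow_s_iff v.2 0).mpr ⟨rfl, fun i hi => δ_ne 0 {0} i hi⟩
  have hpow' : (α v : U) ^ s 0 = 1 := by
    rw [← SubgroupClass.coe_pow, ← map_pow, hpow, map_one]; rfl
  obtain ⟨hg, hz⟩ := (pow_s_iff (α v).2 0).mp hpow'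
  -- `e j` commutes with `v` for `j ≠ 0`
  have h1 : ∀ j, j ≠ 0 → eG j * v * (eG j)⁻¹ = v := by
    intro j hj
    apply Subtype.ext
    show (⟨0, e j⟩ : U) * (⟨δ 0 {0}, 1⟩ : U) * (⟨0, e j⟩ : U)⁻¹ = ⟨δ 0 {0}, 1⟩
    rw [SD.conj_of_one _ _ rfl]
    apply SD.ext
    · show e j • δ 0 {0} = δ 0 {0}
      funext i T
      rw [e_apply]
      split_ifs with hT
      · by_cases hi : i = 0
        · subst hi
          rw [δ_ne' 0 {0} T, neg_zero]
          rintro rfl
          exact hj (Finset.mem_singleton.mp hT)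
        · rw [δ_ne 0 {0} i hi]; simp
      · rfl
    · rfl
  have h2 : ∀ j, j ≠ 0 → e j • (α v : U).x = (α v : U).x := by
    intro j hj
    have h3 := congrArg α (h1 j hj)
    rw [map_mul, map_mul, map_inv] at h3
    have h4 : (α (eG j) : U) * (α v : U) * (α (eG j) : U)⁻¹ = (α v : U) :=
      congrArg Subtype.val h3
    rw [SD.conj_of_one _ _ hg, aut_e α j] at h4
    exact congrArg SD.x h4
  refine ⟨((α v : U).x 0 {0}).val, ?_⟩
  apply Subtype.ext
  rw [SubgroupClass.coe_pow, v_pow]
  apply SD.ext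
  · show (α v : U).x = ((α v : U).x 0 {0}).val • δ 0 {0}
    funext i T
    rw [Pi.smul_apply, Pi.smul_apply]
    by_cases hi : i = 0
    · subst hi
      by_cases hT : T = {0}
      · subst hT
        rw [δ_self, nsmul_eq_mul, mul_one, ZMod.natCast_zmod_val]
      · rw [δ_ne' 0 {0} T hT, smul_zero]
        by_cases h0 : 0 ∈ T
        · have : ∃ j ∈ T, j ≠ 0 := by
            by_contra hcon
            push Not at hcon
            apply hT
            ext j
            rw [Finset.mem_singleton]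
            exact ⟨hcon j, fun h => h ▸ h0⟩
          obtain ⟨j, hjT, hj⟩ := this
          have h3 := congrFun (congrFun (h2 j hj) 0) T
          rw [e_apply, if_pos hjT] at h3
          exact eq_zero_of_neg h3
        · exact G_vanish (α v).2 0 T h0
    · rw [hz i hi, δ_ne 0 {0} i hi]; simp
  · exact hg

theorem v_not_central : eG 0 * v * (eG 0)⁻¹ ≠ v := by
  intro h
  have h1 : (⟨0, e 0⟩ : U) * (⟨δ 0 {0}, 1⟩ : U) * (⟨0, e 0⟩ : U)⁻¹ = ⟨δ 0 {0}, 1⟩ :=
    congrArg Subtype.val h
  rw [SD.conj_of_one _ _ rfl] at h1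
  have h2 : e 0 • δ 0 {0} = δ 0 {0} := congrArg SD.x h1
  have h3 := congrFun (congrFun h2 0) {0}
  rw [e_apply, if_pos (Finset.mem_singleton_self 0), δ_self] at h3
  exact one_ne_zero (eq_zero_of_neg h3)

/-- There is a locally finite, locally integrable group which is not integrable. -/
theorem result.{u} : ∃ (G : Type) (_ : Group G),
    (∀ Q : Subgroup G, Q.FG → Finite Q) ∧
    (∀ F : Set G, F.Finite → ∃ Q : Subgroup G, F ⊆ Q ∧
      ∃ (H : Type) (_ : Group H), Nonempty (commutator H ≃* Q)) ∧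
    ∀ (H : Type u) [Group H], IsEmpty (commutator H ≃* G) := by
  refine ⟨G, inferInstance, G_locally_finite, G_locally_integrable, ?_⟩
  intro H _
  refine not_integrable v (eG 0) v_not_central (fun α β => ?_) H
  obtain ⟨a, ha⟩ := aut_v α
  obtain ⟨b, hb⟩ := aut_v β
  rw [ha, hb, map_pow, map_pow, ha, hb, ← pow_mul, ← pow_mul, mul_comm]

end Pool.Agent.Results.MP_2bd3fb_al.NotIntegrable
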